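import Mathlib
import Pool.Agent.J4H20.CI.Stm

/-! Project CI (helper20), part LOC (helper19): local product structure of a smooth action of a
vector group with a momentum map. -/

open scoped Topology ContDiff Manifold
open Set Metric Pool.Agent.Helper186 Pool.Agent.H826R2.Wein

noncomputable section

namespace Pool.Agent.J4H19.CI

open Pool.Agent.J4H20.CI

set_option linter.unusedSectionVars false

universe u v

/-- inverse function theorem, smooth version -/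
lemma exists_local_inverse {W E : Type*} [NormedAddCommGroup W] [NormedSpace ℝ W] [CompleteSpace W]
    [NormedAddCommGroup E] [NormedSpace ℝ E] {g : W → E} {D : Set W} (hD : IsOpen D)
    (hg : ContDiffOn ℝ ∞ g D) {w₀ : W} (hw : w₀ ∈ D) (L : W ≃L[ℝ] E)
    (hL : HasFDerivAt g (L : W →L[ℝ] E) w₀) :
    ∃ Φ : OpenPartialHomeomorph W E, w₀ ∈ Φ.source ∧ Φ.source ⊆ D ∧ (∀ w, Φ w = g w) ∧
      ContDiffOn ℝ ∞ Φ.symm Φ.target := by
  have hgat : ∀ w ∈ D, ContDiffAt ℝ ∞ g w := fun w hw => hg.contDiffAt (hD.mem_nhds hw)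
  have hstrict : HasStrictFDerivAt g (L : W →L[ℝ] E) w₀ :=
    (hgat _ hw).hasStrictFDerivAt' hL (by simp)
  let Φ := hstrict.toOpenPartialHomeomorph g
  have hΦy : w₀ ∈ Φ.source := hstrict.mem_toOpenPartialHomeomorph_source
  let O : Set W := D ∩ fderiv ℝ g ⁻¹' range ((↑) : (W ≃L[ℝ] E) → W →L[ℝ] E)
  have hcf : ContinuousOn (fderiv ℝ g) D := hg.continuousOn_fderiv_of_isOpen hD (by simp)
  have hO : IsOpen O := hcf.isOpen_inter_preimage hD ContinuousLinearEquiv.isOpen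
  have hyO : w₀ ∈ O := ⟨hw, L, hL.fderiv.symm⟩
  let Φ' := Φ.restrOpen O hO
  refine ⟨Φ', ⟨hΦy, hyO⟩, fun w hw => hw.2.1, fun w => rfl, ?_⟩
  intro w hw
  have hw2 : Φ'.symm w ∈ Φ'.source := Φ'.map_target hw
  obtain ⟨hw3, hw4, L', hL'⟩ := hw2
  have h2 : HasFDerivAt Φ' (L' : W →L[ℝ] E) (Φ'.symm w) := by
    have h3 := ((hgat _ hw4).differentiableAt (by simp)).hasFDerivAt
    have h4 : fderiv ℝ g (Φ'.symm w) = (L' : W →L[ℝ] E) := hL'.symm
    rw [h4] at h3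
    exact h3
  exact (Φ'.contDiffAt_symm hw h2 (hgat _ hw4)).contDiffWithinAt

/-- orthogonal decomposition for the dot product -/
lemma exists_decomp {m : ℕ} (K : Submodule ℝ (Fin m → ℝ)) (c : Fin m → ℝ) :
    ∃ s h : Fin m → ℝ, h ∈ K ∧ (∀ k ∈ K, ∑ i, k i * s i = 0) ∧ c = s + h := by
  let T := EuclideanSpace.equiv (Fin m) ℝ
  let K' : Submodule ℝ (EuclideanSpace ℝ (Fin m)) :=
    K.comap (T : EuclideanSpace ℝ (Fin m) →ₗ[ℝ] (Fin m → ℝ))
  obtain ⟨y, hy, z, hz, hyz⟩ := K'.exists_add_mem_mem_orthogonal (T.symm c)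
  refine ⟨T z, T y, hy, fun k hk => ?_, ?_⟩
  · have h1 := (Submodule.mem_orthogonal _ _).1 hz (T.symm k) (by
      show T (T.symm k) ∈ K
      rwa [T.apply_symm_apply])
    rw [PiLp.inner_apply] at h1
    rw [← h1]
    refine Finset.sum_congr rfl fun i _ => ?_
    simp [T, mul_comm]
  · rw [← map_add, add_comm z y, ← hyz, T.apply_symm_apply]

section act

variable {E : Type u} [NormedAddCommGroup E] [NormedSpace ℝ E] [FiniteDimensional ℝ E]
  {N : Type v} [TopologicalSpace N] [ChartedSpace E N] [IsManifold 𝓘(ℝ, E) ∞ N] {m : ℕ}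

/-- the generator in the chart at the point -/
lemma hasFDerivAt_chart_act (A : VA E N m) (y₀ : N) :
    HasFDerivAt (fun θ : Fin m → ℝ => chartAt E y₀ (A.act θ y₀))
      (LinearMap.toContinuousLinearMap (A.XL y₀)) 0 := by
  have h1 : MDifferentiableAt 𝓘(ℝ, Fin m → ℝ) 𝓘(ℝ, E) (fun θ => A.act θ y₀) 0 :=
    (A.smooth_left y₀).mdifferentiableAt (by simp)
  have h2 := h1.hasMFDerivAt.2
  rw [writtenInExtChartAt] at h2
  simp only [extChartAt_model_space_eq_id, PartialEquiv.refl_symm, PartialEquiv.refl_coe,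
    modelWithCornersSelf_coe, Set.range_id, id_eq] at h2
  have e : ∀ z : N, z = y₀ → (extChartAt 𝓘(ℝ, E) z ∘ (fun θ => A.act θ y₀) ∘ id) =
      (fun θ : Fin m → ℝ => chartAt E y₀ (A.act θ y₀)) := by
    rintro _ rfl
    ext θ
    simp
  have e' := e _ (A.zero y₀)
  rw [e'] at h2
  have h3 := (hasFDerivWithinAt_univ (𝕜 := ℝ) (E := Fin m → ℝ) (F := E)).1 h2
  exact h3

lemma mem_ker_XL {A : VA E N m} {y₀ : N} {c : Fin m → ℝ} :
    c ∈ LinearMap.ker (A.XL y₀) ↔ A.X c y₀ = 0 := Iff.rfl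

/-- decomposition along the isotropy algebra -/
lemma exists_perp (A : VA E N m) (y₀ : N) (c : Fin m → ℝ) :
    ∃ s h : Fin m → ℝ, s ∈ A.perp y₀ ∧ A.X h y₀ = 0 ∧ c = s + h := by
  obtain ⟨s, h, h1, h2, h3⟩ := exists_decomp (LinearMap.ker (A.XL y₀)) c
  exact ⟨s, h, fun k hk => h2 k hk, h1, h3⟩

lemma eq_zero_of_perp {A : VA E N m} {y₀ : N} {s : Fin m → ℝ} (h1 : s ∈ A.perp y₀)
    (h2 : A.X s y₀ = 0) : s = 0 := by
  have h3 := h1 s h2
  have h4 := (Finset.sum_eq_zero_iff_of_nonneg (fun i _ => mul_self_nonneg (s i))).1 h3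
  ext i
  simpa using h4 i (Finset.mem_univ i)

/-- the parametrisation by the group and a slice, in the chart at the point -/
def par (A : VA E N m) (y₀ : N) (p : (Fin m → ℝ) × E) : E :=
  chartAt E y₀ (A.act p.1 ((chartAt E y₀).symm (chartAt E y₀ y₀ + p.2)))

/-- the domain of `par` -/
def parD (A : VA E N m) (y₀ : N) : Set ((Fin m → ℝ) × E) :=
  {p | chartAt E y₀ y₀ + p.2 ∈ (chartAt E y₀).target} ∩
    (fun p => A.act p.1 ((chartAt E y₀).symm (chartAt E y₀ y₀ + p.2))) ⁻¹' (chartAt E y₀).source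

lemma parD_open_smooth (A : VA E N m) (y₀ : N) : IsOpen (parD A y₀) ∧
    ContDiffOn ℝ ∞ (par A y₀) (parD A y₀) := by
  set e := chartAt E y₀
  set p₀ := e y₀
  let D1 : Set ((Fin m → ℝ) × E) := {p | p₀ + p.2 ∈ e.target}
  have hD1 : IsOpen D1 := e.open_target.preimage (by fun_prop)
  have h0 : ContMDiffOn 𝓘(ℝ, (Fin m → ℝ) × E) 𝓘(ℝ, E) ∞
      (fun p : (Fin m → ℝ) × E => e.symm (p₀ + p.2)) D1 := by
    have h1 : ContMDiffOn 𝓘(ℝ, E) 𝓘(ℝ, E) ∞ e.symm e.target :=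
      contMDiffOn_chart_symm (I := 𝓘(ℝ, E)) (n := ∞) (x := y₀)
    have h2 : ContMDiff 𝓘(ℝ, (Fin m → ℝ) × E) 𝓘(ℝ, E) ∞
        (fun p : (Fin m → ℝ) × E => p₀ + p.2) := (contDiff_const.add contDiff_snd).contMDiff
    exact h1.comp h2.contMDiffOn (fun p hp => hp)
  have h1 : ContMDiffOn 𝓘(ℝ, (Fin m → ℝ) × E) 𝓘(ℝ, E) ∞
      (fun p : (Fin m → ℝ) × E => A.act p.1 (e.symm (p₀ + p.2))) D1 := by
    have h2 : ContMDiff 𝓘(ℝ, (Fin m → ℝ) × E) 𝓘(ℝ, Fin m → ℝ) ∞
        (fun p : (Fin m → ℝ) × E => p.1) := contDiff_fst.contMDiff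
    exact A.smooth.comp_contMDiffOn (h2.contMDiffOn.prodMk h0)
  have hD : IsOpen (parD A y₀) := h1.continuousOn.isOpen_inter_preimage hD1 e.open_source
  refine ⟨hD, ?_⟩
  rw [← contMDiffOn_iff_contDiffOn]
  have h3 : ContMDiffOn 𝓘(ℝ, E) 𝓘(ℝ, E) ∞ e e.source :=
    contMDiffOn_chart (I := 𝓘(ℝ, E)) (n := ∞) (x := y₀)
  exact h3.comp (h1.mono inter_subset_left) (fun p hp => hp.2)

lemma parD_zero (A : VA E N m) (y₀ : N) : ((0 : Fin m → ℝ), (0 : E)) ∈ parD A y₀ := by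
  have hye : y₀ ∈ (chartAt E y₀).source := mem_chart_source E y₀
  refine ⟨?_, ?_⟩
  · show chartAt E y₀ y₀ + 0 ∈ (chartAt E y₀).target
    rw [add_zero]; exact (chartAt E y₀).map_source hye
  · show A.act 0 ((chartAt E y₀).symm (chartAt E y₀ y₀ + 0)) ∈ (chartAt E y₀).source
    rw [A.zero, add_zero, (chartAt E y₀).left_inv hye]; exact hye

lemma fderiv_par (A : VA E N m) (y₀ : N) (s : Fin m → ℝ) (z : E) :
    fderiv ℝ (par A y₀) (0, 0) (s, z) = (A.XL y₀ s : E) + z := by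
  have hye : y₀ ∈ (chartAt E y₀).source := mem_chart_source E y₀
  obtain ⟨hDo, hDs⟩ := parD_open_smooth A y₀
  have h0 := parD_zero A y₀
  have hd : HasFDerivAt (par A y₀) (fderiv ℝ (par A y₀) (0, 0)) (0, 0) :=
    ((hDs.contDiffAt (hDo.mem_nhds h0)).differentiableAt (by simp)).hasFDerivAt
  have h1 : fderiv ℝ (par A y₀) (0, 0) (s, 0) = (A.XL y₀ s : E) := by
    have h2 : HasFDerivAt (fun s : Fin m → ℝ => par A y₀ (s, 0))
        ((fderiv ℝ (par A y₀) (0, 0)).comp (ContinuousLinearMap.inl ℝ (Fin m → ℝ) E)) 0 :=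
      HasFDerivAt.comp (g := par A y₀) (f := fun s : Fin m → ℝ => (s, (0 : E))) (0 : Fin m → ℝ) hd
        (ContinuousLinearMap.inl ℝ (Fin m → ℝ) E).hasFDerivAt
    have h3 : (fun s : Fin m → ℝ => par A y₀ (s, 0)) =
        fun θ : Fin m → ℝ => chartAt E y₀ (A.act θ y₀) := by
      ext1 θ
      show chartAt E y₀ (A.act θ ((chartAt E y₀).symm (chartAt E y₀ y₀ + 0))) = _
      rw [add_zero, (chartAt E y₀).left_inv hye]
    rw [h3] at h2
    have h4 := h2.unique (hasFDerivAt_chart_act A y₀)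
    have h5 := DFunLike.congr_fun h4 s
    exact h5
  have h2 : fderiv ℝ (par A y₀) (0, 0) (0, z) = z := by
    have h2 : HasFDerivAt (fun z : E => par A y₀ (0, z))
        ((fderiv ℝ (par A y₀) (0, 0)).comp (ContinuousLinearMap.inr ℝ (Fin m → ℝ) E)) 0 :=
      HasFDerivAt.comp (g := par A y₀) (f := fun z : E => ((0 : Fin m → ℝ), z)) (0 : E) hd
        (ContinuousLinearMap.inr ℝ (Fin m → ℝ) E).hasFDerivAt
    have h3 : (fun z : E => par A y₀ (0, z)) =ᶠ[𝓝 0] fun z : E => chartAt E y₀ y₀ + z := by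
      have h4 : ∀ᶠ z : E in 𝓝 0, chartAt E y₀ y₀ + z ∈ (chartAt E y₀).target := by
        have h5 : ContinuousAt (fun z : E => chartAt E y₀ y₀ + z) 0 := by fun_prop
        apply h5.preimage_mem_nhds
        rw [add_zero]
        exact (chartAt E y₀).open_target.mem_nhds ((chartAt E y₀).map_source hye)
      filter_upwards [h4] with z hz
      show chartAt E y₀ (A.act 0 ((chartAt E y₀).symm (chartAt E y₀ y₀ + z))) = _
      rw [A.zero, (chartAt E y₀).right_inv hz]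
    have h4 : HasFDerivAt (fun z : E => chartAt E y₀ y₀ + z) (ContinuousLinearMap.id ℝ E) 0 :=
      (hasFDerivAt_id (0:E)).const_add _
    have h5 := (h2.congr_of_eventuallyEq h3.symm).unique h4
    have h6 := DFunLike.congr_fun h5 z
    exact h6
  have h3 : ((s, z) : (Fin m → ℝ) × E) = (s, 0) + (0, z) := by simp
  rw [h3, map_add, h1, h2]

end act

/-- **(LOC)** -/
theorem t_LOC : S_LOC.{u, v} := by
  intro E _ _ _ N _ _ _ _ m A μ hμ y₀
  set e := chartAt E y₀ with he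
  have hye : y₀ ∈ e.source := mem_chart_source E y₀
  set p₀ := e y₀ with hp₀
  obtain ⟨Z, hZ⟩ := Submodule.exists_isCompl (LinearMap.range (A.XL y₀))
  -- the linear parametrisation of the slices
  let J : (A.perp y₀ × Z) →L[ℝ] ((Fin m → ℝ) × E) :=
    ((A.perp y₀).subtypeL.comp (ContinuousLinearMap.fst ℝ _ _)).prod
      (Z.subtypeL.comp (ContinuousLinearMap.snd ℝ _ _))
  have hJ1 : ∀ q : A.perp y₀ × Z, (J q).1 = (q.1 : Fin m → ℝ) := fun q => rfl
  have hJ2 : ∀ q : A.perp y₀ × Z, (J q).2 = (q.2 : E) := fun q => rfl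
  obtain ⟨hDo, hDs⟩ := parD_open_smooth A y₀
  set D : Set (A.perp y₀ × Z) := J ⁻¹' parD A y₀ with hD
  set g : A.perp y₀ × Z → E := fun q => par A y₀ (J q) with hg
  have hDo' : IsOpen D := hDo.preimage J.continuous
  have hgs : ContDiffOn ℝ ∞ g D := hDs.comp J.contDiff.contDiffOn (fun q hq => hq)
  have h0D : ((0 : A.perp y₀), (0 : Z)) ∈ D := parD_zero A y₀
  -- the derivative
  let L₀ : (A.perp y₀ × Z) →ₗ[ℝ] E :=
    ((A.XL y₀).comp ((A.perp y₀).subtype)).coprod Z.subtype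
  have hL₀ : ∀ q, L₀ q = (A.XL y₀ (q.1 : Fin m → ℝ) : E) + (q.2 : E) := fun q => rfl
  have hbij : Function.Bijective L₀ := by
    constructor
    · rw [← LinearMap.ker_eq_bot, LinearMap.ker_eq_bot']
      rintro ⟨s, z⟩ h
      have h1 : (A.XL y₀ (s : Fin m → ℝ) : E) + (z : E) = 0 := h
      have h2 : (z : E) ∈ LinearMap.range (A.XL y₀) := by
        refine ⟨-(s : Fin m → ℝ), ?_⟩
        rw [map_neg]
        exact neg_eq_of_add_eq_zero_right h1
      have h3 : (z : E) = 0 := by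
        have := (Submodule.disjoint_def.1 hZ.disjoint) _ h2 z.2
        exact this
      rw [h3, add_zero] at h1
      have h4 := eq_zero_of_perp s.2 h1
      ext1
      · exact Subtype.ext h4
      · exact Subtype.ext h3
    · intro w
      have hw : w ∈ LinearMap.range (A.XL y₀) ⊔ Z := by
        rw [hZ.sup_eq_top]; trivial
      obtain ⟨o, ⟨c, rfl⟩, z, hz, rfl⟩ := Submodule.mem_sup.1 hw
      obtain ⟨s, h, hs, hh, rfl⟩ := exists_perp A y₀ c
      refine ⟨(⟨s, hs⟩, ⟨z, hz⟩), ?_⟩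
      rw [hL₀, map_add]
      have hh' : (A.XL y₀ h : E) = 0 := hh
      rw [hh', add_zero]
  let L : (A.perp y₀ × Z) ≃L[ℝ] E := (LinearEquiv.ofBijective L₀ hbij).toContinuousLinearEquiv
  have hgd : HasFDerivAt g (L : (A.perp y₀ × Z) →L[ℝ] E) (0, 0) := by
    have hd : HasFDerivAt (par A y₀) (fderiv ℝ (par A y₀) (0, 0)) (J (0, 0)) :=
      ((hDs.contDiffAt (hDo.mem_nhds (parD_zero A y₀))).differentiableAt (by simp)).hasFDerivAt
    have h1 : HasFDerivAt g ((fderiv ℝ (par A y₀) (0, 0)).comp J) (0, 0) :=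
      hd.comp (0, 0) J.hasFDerivAt
    have h2 : (fderiv ℝ (par A y₀) (0, 0)).comp J = (L : (A.perp y₀ × Z) →L[ℝ] E) := by
      refine ContinuousLinearMap.ext fun q => ?_
      show fderiv ℝ (par A y₀) (0, 0) ((q.1 : Fin m → ℝ), (q.2 : E)) = L₀ q
      rw [fderiv_par, hL₀]
    rwa [h2] at h1
  obtain ⟨Φ, hΦ0, hΦD, hΦg, hΦs⟩ := exists_local_inverse hDo' hgs h0D L hgd
  -- the momentum map is injective on the slice
  have hμi : ∃ V : Set Z, IsOpen V ∧ (0 : Z) ∈ V ∧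
      InjOn (fun z : Z => μ (e.symm (p₀ + z))) V := by
    let T : Set Z := {z : Z | p₀ + (z : E) ∈ e.target}
    have hTo : IsOpen T := e.open_target.preimage (by fun_prop)
    have hT0 : (0 : Z) ∈ T := by
      show p₀ + ((0 : Z) : E) ∈ e.target
      rw [ZeroMemClass.coe_zero, add_zero]; exact e.map_source hye
    have hμe : ContDiffOn ℝ ∞ (μ ∘ e.symm) e.target := by
      rw [← contMDiffOn_iff_contDiffOn]
      exact hμ.smooth.comp_contMDiffOn (contMDiffOn_chart_symm (I := 𝓘(ℝ, E)) (n := ∞) (x := y₀))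
    have htr : ContDiff ℝ ∞ (fun z : Z => p₀ + (z : E)) :=
      contDiff_const.add Z.subtypeL.contDiff
    have hh : ContDiffOn ℝ ∞ (fun z : Z => μ (e.symm (p₀ + z))) T :=
      hμe.comp htr.contDiffOn (fun z hz => hz)
    have hd1 : HasFDerivAt (μ ∘ e.symm) (fderiv ℝ (μ ∘ e.symm) p₀) (p₀ + ((0 : Z) : E)) := by
      rw [ZeroMemClass.coe_zero, add_zero]
      exact ((hμe.contDiffAt (e.open_target.mem_nhds (e.map_source hye))).differentiableAt
        (by simp)).hasFDerivAt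
    have hd2 : HasFDerivAt (fun z : Z => p₀ + (z : E)) Z.subtypeL 0 :=
      Z.subtypeL.hasFDerivAt.const_add _
    have hd3 : HasFDerivAt (fun z : Z => μ (e.symm (p₀ + z)))
        ((fderiv ℝ (μ ∘ e.symm) p₀).comp Z.subtypeL) 0 :=
      HasFDerivAt.comp (g := μ ∘ e.symm) (f := fun z : Z => p₀ + (z : E)) (0 : Z) hd1 hd2
    set hL := (fderiv ℝ (μ ∘ e.symm) p₀).comp Z.subtypeL with hhL
    have hker : LinearMap.ker (hL : Z →ₗ[ℝ] (Fin m → ℝ)) = ⊥ := by
      rw [LinearMap.ker_eq_bot']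
      intro z hz
      have h1 : mfderiv 𝓘(ℝ, E) 𝓘(ℝ, Fin m → ℝ) μ y₀ (z : E) = 0 := by
        have h2 := mfderiv_eq_fderiv_chart (I := 𝓘(ℝ, E))
          (hμ.smooth.mdifferentiableAt (x := y₀) (by simp)) (z : E)
        exact h2.trans hz
      obtain ⟨c, hc⟩ := hμ.ker y₀ (z : E) h1
      have h2 : (z : E) ∈ LinearMap.range (A.XL y₀) := ⟨c, hc⟩
      exact Subtype.ext ((Submodule.disjoint_def.1 hZ.disjoint) _ h2 z.2)
    obtain ⟨G, hG⟩ := LinearMap.exists_leftInverse_of_injective (hL : Z →ₗ[ℝ] (Fin m → ℝ)) hker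
    let G' : (Fin m → ℝ) →L[ℝ] Z := LinearMap.toContinuousLinearMap G
    have hk : HasStrictFDerivAt (fun z : Z => G' (μ (e.symm (p₀ + z))))
        ((ContinuousLinearEquiv.refl ℝ Z : Z ≃L[ℝ] Z) : Z →L[ℝ] Z) 0 := by
      have h1 : ContDiffAt ℝ ∞ (fun z : Z => G' (μ (e.symm (p₀ + z)))) 0 :=
        G'.contDiff.contDiffAt.comp (0 : Z) (hh.contDiffAt (hTo.mem_nhds hT0))
      refine h1.hasStrictFDerivAt' ?_ (by simp)
      have h2 : HasFDerivAt (fun z : Z => G' (μ (e.symm (p₀ + z)))) (G'.comp hL) 0 :=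
        HasFDerivAt.comp (g := G') (f := fun z : Z => μ (e.symm (p₀ + z))) (0 : Z)
          G'.hasFDerivAt hd3
      have h3 : G'.comp hL = ((ContinuousLinearEquiv.refl ℝ Z : Z ≃L[ℝ] Z) : Z →L[ℝ] Z) := by
        refine ContinuousLinearMap.ext fun z => ?_
        exact DFunLike.congr_fun hG z
      rwa [h3] at h2
    let Ψ := hk.toOpenPartialHomeomorph _
    refine ⟨Ψ.source, Ψ.open_source, hk.mem_toOpenPartialHomeomorph_source, ?_⟩
    intro z hz z' hz' h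
    apply Ψ.injOn hz hz'
    show G' (μ (e.symm (p₀ + z))) = G' (μ (e.symm (p₀ + z')))
    exact congrArg G' h
  obtain ⟨V, hVo, hV0, hVi⟩ := hμi
  -- the size of the neighbourhood
  obtain ⟨r, hr, hr1, hr2⟩ : ∃ r > 0, ball ((0 : A.perp y₀), (0 : Z)) (2 * r) ⊆ Φ.source ∧
      ball (0 : Z) r ⊆ V := by
    obtain ⟨r1, hr1, h1⟩ := Metric.isOpen_iff.1 Φ.open_source _ hΦ0
    obtain ⟨r2, hr2, h2⟩ := Metric.isOpen_iff.1 hVo _ hV0
    refine ⟨min (r1 / 2) r2, lt_min (by linarith) hr2, ?_, ?_⟩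
    · refine (ball_subset_ball ?_).trans h1
      have := min_le_left (r1 / 2) r2
      linarith
    · exact (ball_subset_ball (min_le_right _ _)).trans h2
  let Φ' := Φ.restrOpen (ball ((0 : A.perp y₀), (0 : Z)) r) isOpen_ball
  have hΦ's : ∀ q, q ∈ Φ'.source ↔ q ∈ Φ.source ∧ q ∈ ball ((0 : A.perp y₀), (0 : Z)) r :=
    fun q => Iff.rfl
  have hsub : ball ((0 : A.perp y₀), (0 : Z)) r ⊆ Φ.source :=
    (ball_subset_ball (by linarith)).trans hr1
  have hball : ∀ (s : A.perp y₀) (z : Z) (ρ : ℝ), (s, z) ∈ ball ((0 : A.perp y₀), (0 : Z)) ρ ↔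
      ‖s‖ < ρ ∧ ‖z‖ < ρ := by
    intro s z ρ
    rw [mem_ball, Prod.dist_eq, max_lt_iff, dist_zero_right, dist_zero_right]
  have hΦ'sm : ContDiffOn ℝ ∞ Φ'.symm Φ'.target := by
    refine (hΦs.mono ?_)
    intro w hw
    have := Φ'.map_target hw
    have h2 : Φ (Φ.symm w) = w := Φ'.right_inv hw
    rw [← h2]
    exact Φ.map_source this.1
  let U : Set N := e.source ∩ e ⁻¹' Φ'.target
  have hUo : IsOpen U := e.isOpen_inter_preimage Φ'.open_target
  have hy₀U : y₀ ∈ U := by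
    refine ⟨hye, ?_⟩
    show p₀ ∈ Φ'.target
    have h1 : Φ' ((0 : A.perp y₀), (0 : Z)) = p₀ := by
      show Φ (0, 0) = p₀
      rw [hΦg]
      show e (A.act 0 (e.symm (p₀ + 0))) = p₀
      rw [A.zero, add_zero, e.left_inv hye]
    rw [← h1]
    apply Φ'.map_source
    exact ⟨hΦ0, mem_ball_self hr⟩
  let q : N → A.perp y₀ × Z := fun y => Φ'.symm (e y)
  have hq : ∀ y ∈ U, q y ∈ Φ'.source ∧ A.act ((q y).1 : Fin m → ℝ) (e.symm (p₀ + (q y).2)) = y := by
    intro y hy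
    have h1 : q y ∈ Φ'.source := Φ'.map_target hy.2
    refine ⟨h1, ?_⟩
    have h2 : Φ (q y) = e y := Φ'.right_inv hy.2
    rw [hΦg] at h2
    have h3 : q y ∈ D := hΦD h1.1
    apply e.injOn h3.2 hy.1
    exact h2
  refine ⟨U, fun y => ((q y).1 : Fin m → ℝ), r, hUo, hy₀U, hr, ?_, fun y _ => (q y).1.2, ?_, ?_⟩
  · have h1 : ContMDiffOn 𝓘(ℝ, E) 𝓘(ℝ, E) ∞ e e.source :=
      contMDiffOn_chart (I := 𝓘(ℝ, E)) (n := ∞) (x := y₀)
    have h2 : ContDiffOn ℝ ∞ (fun w : E => ((Φ'.symm w).1 : Fin m → ℝ)) Φ'.target :=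
      ((A.perp y₀).subtypeL.comp (ContinuousLinearMap.fst ℝ (A.perp y₀) Z)).contDiff.comp_contDiffOn
        hΦ'sm
    exact h2.contMDiffOn.comp (h1.mono inter_subset_left) (fun y hy => hy.2)
  · intro y hy y' hy' hμy
    obtain ⟨h1, h2⟩ := hq y hy
    obtain ⟨h1', h2'⟩ := hq y' hy'
    have hz : (q y).2 = (q y').2 := by
      apply hVi
      · apply hr2
        rw [mem_ball_zero_iff]
        exact ((hball _ _ _).1 ((hΦ's _).1 h1).2).2
      · apply hr2
        rw [mem_ball_zero_iff]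
        exact ((hball _ _ _).1 ((hΦ's _).1 h1').2).2
      · show μ (e.symm (p₀ + (q y).2)) = μ (e.symm (p₀ + (q y').2))
        rw [← hμ.inv ((q y).1 : Fin m → ℝ), h2, ← hμ.inv ((q y').1 : Fin m → ℝ) (e.symm (p₀ + (q y').2)),
          h2', hμy]
    have h3 : A.act (((q y').1 : Fin m → ℝ) - (q y).1)
        (A.act ((q y).1 : Fin m → ℝ) (e.symm (p₀ + (q y).2))) = y' := by
      rw [← A.add, sub_add_cancel, hz, h2']
    rw [h2] at h3
    exact h3
  · intro y hy s hs hsr hact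
    obtain ⟨h1, h2⟩ := hq y hy
    obtain ⟨h3, h4⟩ := (hΦ's _).1 h1
    have h5 : ‖(q y).1‖ < r ∧ ‖(q y).2‖ < r := (hball _ _ _).1 h4
    have h6 : (⟨s, hs⟩ + (q y).1, (q y).2) ∈ Φ.source := by
      apply hr1
      rw [hball]
      have h7 : ‖(⟨s, hs⟩ : A.perp y₀)‖ < r := hsr
      refine ⟨?_, by linarith [h5.2]⟩
      have := norm_add_le (⟨s, hs⟩ : A.perp y₀) (q y).1
      linarith [h5.1]
    have h7 : Φ (⟨s, hs⟩ + (q y).1, (q y).2) = Φ (q y) := by
      rw [hΦg, hΦg]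
      show e (A.act (s + ((q y).1 : Fin m → ℝ)) (e.symm (p₀ + (q y).2))) =
        e (A.act ((q y).1 : Fin m → ℝ) (e.symm (p₀ + (q y).2)))
      rw [A.add, h2, hact]
    have h8 := Φ.injOn h6 h3 h7
    have h9 : (⟨s, hs⟩ : A.perp y₀) + (q y).1 = (q y).1 := congrArg Prod.fst h8
    have h10 : (⟨s, hs⟩ : A.perp y₀) = 0 := by simpa using h9
    exact congrArg Subtype.val h10

end Pool.Agent.J4H19.CI
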