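import Mathlib
import Pool.Agent.J4H19.CI.Loc

/-! Project CI (helper20), part BAS (helper19): smooth local bases of the period lattices. -/

open scoped Topology ContDiff Manifold
open Set Metric Pool.Agent.Helper186 Pool.Agent.H826R2.Wein

noncomputable section

namespace Pool.Agent.J4H19.CI

open Pool.Agent.J4H20.CI

set_option linter.unusedSectionVars false

universe u v

section chart

variable {E : Type u} [NormedAddCommGroup E] [NormedSpace ℝ E] [FiniteDimensional ℝ E]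
  {N : Type v} [TopologicalSpace N] [ChartedSpace E N] [IsManifold 𝓘(ℝ, E) ∞ N] {m : ℕ}

/-- the generators in the chart at `y₀` -/
def Mf (A : VA E N m) (y₀ y : N) : (Fin m → ℝ) →L[ℝ] E :=
  (fderiv ℝ (par A y₀) (0, chartAt E y₀ y - chartAt E y₀ y₀)).comp
    (ContinuousLinearMap.inl ℝ (Fin m → ℝ) E)

lemma mem_parD (A : VA E N m) {y₀ y : N} (hy : y ∈ (chartAt E y₀).source) :
    ((0 : Fin m → ℝ), chartAt E y₀ y - chartAt E y₀ y₀) ∈ parD A y₀ := by
  refine ⟨?_, ?_⟩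
  · show chartAt E y₀ y₀ + (chartAt E y₀ y - chartAt E y₀ y₀) ∈ (chartAt E y₀).target
    rw [add_sub_cancel]; exact (chartAt E y₀).map_source hy
  · show A.act 0 ((chartAt E y₀).symm (chartAt E y₀ y₀ + (chartAt E y₀ y - chartAt E y₀ y₀))) ∈
      (chartAt E y₀).source
    rw [A.zero, add_sub_cancel, (chartAt E y₀).left_inv hy]; exact hy

lemma contMDiffOn_Mf (A : VA E N m) (y₀ : N) :
    ContMDiffOn 𝓘(ℝ, E) 𝓘(ℝ, (Fin m → ℝ) →L[ℝ] E) ∞ (Mf A y₀) (chartAt E y₀).source := by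
  obtain ⟨hDo, hDs⟩ := parD_open_smooth A y₀
  have h1 : ContDiffOn ℝ ∞ (fderiv ℝ (par A y₀)) (parD A y₀) :=
    hDs.fderiv_of_isOpen hDo (by simp)
  have h2 : ContMDiffOn 𝓘(ℝ, E) 𝓘(ℝ, (Fin m → ℝ) × E) ∞
      (fun y => ((0 : Fin m → ℝ), chartAt E y₀ y - chartAt E y₀ y₀)) (chartAt E y₀).source := by
    have h3 : ContMDiffOn 𝓘(ℝ, E) 𝓘(ℝ, E) ∞ (chartAt E y₀) (chartAt E y₀).source :=
      contMDiffOn_chart (I := 𝓘(ℝ, E)) (n := ∞) (x := y₀)
    have h4 : ContDiff ℝ ∞ (fun w : E => ((0 : Fin m → ℝ), w - chartAt E y₀ y₀)) :=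
      contDiff_const.prodMk (contDiff_id.sub contDiff_const)
    exact h4.contMDiff.comp_contMDiffOn h3
  have h3 : ContMDiffOn 𝓘(ℝ, E) 𝓘(ℝ, ((Fin m → ℝ) × E) →L[ℝ] E) ∞
      (fun y => fderiv ℝ (par A y₀) (0, chartAt E y₀ y - chartAt E y₀ y₀))
      (chartAt E y₀).source :=
    h1.contMDiffOn.comp h2 (fun y hy => mem_parD A hy)
  have h4 : ContDiff ℝ ∞ (fun T : ((Fin m → ℝ) × E) →L[ℝ] E =>
      T.comp (ContinuousLinearMap.inl ℝ (Fin m → ℝ) E)) :=
    contDiff_id.clm_comp contDiff_const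
  exact h4.contMDiff.comp_contMDiffOn h3

lemma hasFDerivAt_Mf (A : VA E N m) {y₀ y : N} (hy : y ∈ (chartAt E y₀).source) :
    HasFDerivAt (fun θ : Fin m → ℝ => chartAt E y₀ (A.act θ y)) (Mf A y₀ y) 0 := by
  obtain ⟨hDo, hDs⟩ := parD_open_smooth A y₀
  have hd : HasFDerivAt (par A y₀) (fderiv ℝ (par A y₀) (0, chartAt E y₀ y - chartAt E y₀ y₀))
      (0, chartAt E y₀ y - chartAt E y₀ y₀) :=
    ((hDs.contDiffAt (hDo.mem_nhds (mem_parD A hy))).differentiableAt (by simp)).hasFDerivAt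
  have h0 : HasFDerivAt (fun s : Fin m → ℝ => (s, chartAt E y₀ y - chartAt E y₀ y₀))
      (ContinuousLinearMap.inl ℝ (Fin m → ℝ) E) 0 := by
    have := (hasFDerivAt_id (𝕜 := ℝ) (0 : Fin m → ℝ)).prodMk
      (hasFDerivAt_const (chartAt E y₀ y - chartAt E y₀ y₀) (0 : Fin m → ℝ))
    exact this
  have h2 := HasFDerivAt.comp (g := par A y₀)
    (f := fun s : Fin m → ℝ => (s, chartAt E y₀ y - chartAt E y₀ y₀)) (0 : Fin m → ℝ) hd h0
  have h3 : (par A y₀ ∘ fun s : Fin m → ℝ => (s, chartAt E y₀ y - chartAt E y₀ y₀)) =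
      fun θ : Fin m → ℝ => chartAt E y₀ (A.act θ y) := by
    ext1 θ
    show chartAt E y₀ (A.act θ ((chartAt E y₀).symm
      (chartAt E y₀ y₀ + (chartAt E y₀ y - chartAt E y₀ y₀)))) = _
    rw [add_sub_cancel, (chartAt E y₀).left_inv hy]
  rw [h3] at h2
  exact h2

lemma Mf_eq_zero_iff (A : VA E N m) {y₀ y : N} (hy : y ∈ (chartAt E y₀).source)
    (c : Fin m → ℝ) : Mf A y₀ y c = 0 ↔ A.X c y = 0 := by
  have h1 : HasMFDerivAt 𝓘(ℝ, Fin m → ℝ) 𝓘(ℝ, E) (fun θ => A.act θ y) 0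
      (mfderiv 𝓘(ℝ, Fin m → ℝ) 𝓘(ℝ, E) (fun θ => A.act θ y) 0) :=
    ((A.smooth_left y).mdifferentiableAt (by simp)).hasMFDerivAt
  have hy' : A.act 0 y ∈ (chartAt E y₀).source := by rw [A.zero]; exact hy
  have h2 : HasMFDerivAt 𝓘(ℝ, E) 𝓘(ℝ, E) (chartAt E y₀) (A.act 0 y)
      (mfderiv 𝓘(ℝ, E) 𝓘(ℝ, E) (chartAt E y₀) (A.act 0 y)) :=
    ((contMDiffOn_chart (I := 𝓘(ℝ, E)) (n := ∞) (x := y₀)).contMDiffAt
      ((chartAt E y₀).open_source.mem_nhds hy')).mdifferentiableAt (by simp) |>.hasMFDerivAt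
  have h3 := HasMFDerivAt.comp (0 : Fin m → ℝ) (g := chartAt E y₀) (f := fun θ => A.act θ y) h2 h1
  have h4 := (hasFDerivAt_Mf A hy).hasMFDerivAt
  have h5 := hasMFDerivAt_unique h4 h3
  have h6 : Mf A y₀ y c = (mfderiv 𝓘(ℝ, E) 𝓘(ℝ, E) (chartAt E y₀) (A.act 0 y))
      (mfderiv 𝓘(ℝ, Fin m → ℝ) 𝓘(ℝ, E) (fun θ => A.act θ y) 0 c) := DFunLike.congr_fun h5 c
  have h7 : (mfderiv 𝓘(ℝ, E) 𝓘(ℝ, E) (chartAt E y₀) (A.act 0 y)).IsInvertible := by
    have := isInvertible_mfderiv_extChartAt (I := 𝓘(ℝ, E)) (x := y₀) (y := A.act 0 y)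
      (by simpa using hy')
    exact this
  obtain ⟨L, hL⟩ := h7
  rw [h6, ← hL]
  constructor
  · intro h
    have := L.injective (h.trans (map_zero L).symm)
    exact this
  · intro h
    have h8 : (mfderiv 𝓘(ℝ, Fin m → ℝ) 𝓘(ℝ, E) (fun θ => A.act θ y) 0 c) = 0 := h
    rw [h8]
    exact map_zero L

/-- the set where a smooth family of endomorphisms is invertible -/
lemma open_inv {F : Type*} [NormedAddCommGroup F] [NormedSpace ℝ F] [CompleteSpace F]
    {S : Set N} (hS : IsOpen S) {T : N → F →L[ℝ] F}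
    (hT : ContMDiffOn 𝓘(ℝ, E) 𝓘(ℝ, F →L[ℝ] F) ∞ T S) :
    IsOpen (S ∩ T ⁻¹' range ((↑) : (F ≃L[ℝ] F) → F →L[ℝ] F)) ∧
    ContMDiffOn 𝓘(ℝ, E) 𝓘(ℝ, F →L[ℝ] F) ∞ (fun y => (T y).inverse)
      (S ∩ T ⁻¹' range ((↑) : (F ≃L[ℝ] F) → F →L[ℝ] F)) := by
  refine ⟨hT.continuousOn.isOpen_inter_preimage hS ContinuousLinearEquiv.isOpen, ?_⟩
  intro y hy
  obtain ⟨hyS, L, hL⟩ := hy
  have h1 : ContDiffAt ℝ ∞ ContinuousLinearMap.inverse (T y) := by
    rw [← hL]
    exact contDiffAt_map_inverse L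
  have h2 := h1.contMDiffAt.comp_contMDiffWithinAt y (hT y hyS)
  exact h2.mono inter_subset_left

section tr

variable {F : Type*} [NormedAddCommGroup F] [NormedSpace ℝ F] [FiniteDimensional ℝ F]

/-- the transposed map for the dot products -/
def trL0 (m : ℕ) (ι : F →L[ℝ] (Fin m → ℝ)) (Q : (Fin m → ℝ) →L[ℝ] F) :
    F →ₗ[ℝ] (Fin m → ℝ) where
  toFun f j := ∑ i, (ι f) i * (ι (Q (Pi.single j 1))) i
  map_add' := by
    intro f g
    ext j
    simp [add_mul, Finset.sum_add_distrib]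
  map_smul' := by
    intro c f
    ext j
    simp [mul_assoc, Finset.mul_sum]

/-- the transposed map for the dot products -/
def trL (m : ℕ) (ι : F →L[ℝ] (Fin m → ℝ)) :
    ((Fin m → ℝ) →L[ℝ] F) →L[ℝ] (F →L[ℝ] (Fin m → ℝ)) :=
  LinearMap.toContinuousLinearMap
    { toFun := fun Q => LinearMap.toContinuousLinearMap (trL0 m ι Q)
      map_add' := by
        intro Q R
        ext f j
        simp [trL0, mul_add, Finset.sum_add_distrib]
      map_smul' := by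
        intro c Q
        ext f j
        simp [trL0, Finset.mul_sum, mul_left_comm] }

lemma contDiff_trL (m : ℕ) (ι : F →L[ℝ] (Fin m → ℝ)) :
    ContDiff ℝ ∞ (fun Q : (Fin m → ℝ) →L[ℝ] F => trL m ι Q) := (trL m ι).contDiff

lemma trL_dot {m : ℕ} (ι : F →L[ℝ] (Fin m → ℝ)) (Q : (Fin m → ℝ) →L[ℝ] F) (f : F)
    (c : Fin m → ℝ) : ∑ j, c j * (trL m ι Q f) j = ∑ i, (ι f) i * (ι (Q c)) i := by
  have h1 : c = ∑ j, c j • (Pi.single j 1 : Fin m → ℝ) := by
    ext i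
    simp [Finset.sum_apply, Pi.single_apply]
  have h2 : ∀ i, (ι (Q c)) i = ∑ j, c j * (ι (Q (Pi.single j 1))) i := by
    intro i
    conv_lhs => rw [h1, map_sum, map_sum]
    simp [Finset.sum_apply]
  simp_rw [h2, Finset.mul_sum]
  rw [Finset.sum_comm]
  refine Finset.sum_congr rfl fun j _ => ?_
  show c j * ∑ i, (ι f) i * (ι (Q (Pi.single j 1))) i = _
  rw [Finset.mul_sum]
  refine Finset.sum_congr rfl fun i _ => ?_
  ring

end tr

lemma isCompl_perp (A : VA E N m) (y : N) : IsCompl (A.perp y) (LinearMap.ker (A.XL y)) := by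
  constructor
  · rw [Submodule.disjoint_def]
    intro s h1 h2
    exact eq_zero_of_perp h1 h2
  · rw [codisjoint_iff, eq_top_iff]
    intro c _
    obtain ⟨s, h, hs, hh, rfl⟩ := exists_perp A y c
    exact Submodule.add_mem_sup hs hh

lemma finrank_perp (A : VA E N m) (y : N) : Module.finrank ℝ (A.perp y) = A.od y := by
  have h1 := Submodule.finrank_add_eq_of_isCompl (isCompl_perp A y)
  have h2 := LinearMap.finrank_range_add_finrank_ker (A.XL y)
  have h3 : A.od y = Module.finrank ℝ (LinearMap.range (A.XL y)) := rfl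
  omega

lemma exists_proj (A : VA E N m) (d : ℕ) (hd : ∀ x, A.od x = d) (y₀ : N) :
    ∃ (U : Set N) (Q : N → (Fin m → ℝ) →L[ℝ] A.perp y₀)
      (P : N → (Fin m → ℝ) →L[ℝ] (Fin m → ℝ)), IsOpen U ∧ y₀ ∈ U ∧
      ContMDiffOn 𝓘(ℝ, E) 𝓘(ℝ, (Fin m → ℝ) →L[ℝ] A.perp y₀) ∞ Q U ∧
      ContMDiffOn 𝓘(ℝ, E) 𝓘(ℝ, (Fin m → ℝ) →L[ℝ] (Fin m → ℝ)) ∞ P U ∧
      (∀ y ∈ U, ∀ c, Q y c = 0 ↔ A.X c y = 0) ∧
      (∀ y ∈ U, ∀ s : A.perp y₀, Q y s = s) ∧
      (∀ y ∈ U, ∀ c, P y c ∈ A.perp y ∧ A.X (P y c - c) y = 0) := by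
  have hye : y₀ ∈ (chartAt E y₀).source := mem_chart_source E y₀
  have hM := contMDiffOn_Mf A y₀
  let K := A.perp y₀
  let ι : K →L[ℝ] (Fin m → ℝ) := K.subtypeL
  have hker : LinearMap.ker (((Mf A y₀ y₀).comp ι : K →L[ℝ] E) : K →ₗ[ℝ] E) = ⊥ := by
    rw [LinearMap.ker_eq_bot']
    intro s hs
    have h1 : Mf A y₀ y₀ (s : Fin m → ℝ) = 0 := hs
    rw [Mf_eq_zero_iff A hye] at h1
    exact Subtype.ext (eq_zero_of_perp s.2 h1)
  obtain ⟨π₀, hπ₀⟩ := LinearMap.exists_leftInverse_of_injective _ hker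
  let π : E →L[ℝ] K := LinearMap.toContinuousLinearMap π₀
  let T : N → K →L[ℝ] K := fun y => π.comp ((Mf A y₀ y).comp ι)
  have hTs : ContMDiffOn 𝓘(ℝ, E) 𝓘(ℝ, K →L[ℝ] K) ∞ T (chartAt E y₀).source := by
    have h1 : ContDiff ℝ ∞ (fun M : (Fin m → ℝ) →L[ℝ] E => π.comp (M.comp ι)) :=
      contDiff_const.clm_comp (contDiff_id.clm_comp contDiff_const)
    exact h1.contMDiff.comp_contMDiffOn hM
  have hT0 : T y₀ = ((ContinuousLinearEquiv.refl ℝ K : K ≃L[ℝ] K) : K →L[ℝ] K) := by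
    refine ContinuousLinearMap.ext fun s => ?_
    exact DFunLike.congr_fun hπ₀ s
  obtain ⟨hU1, hTi⟩ := open_inv (chartAt E y₀).open_source hTs
  set U₁ := (chartAt E y₀).source ∩ T ⁻¹' range ((↑) : (K ≃L[ℝ] K) → K →L[ℝ] K) with hU₁
  have hy1 : y₀ ∈ U₁ := ⟨hye, ContinuousLinearEquiv.refl ℝ K, hT0.symm⟩
  let Q : N → (Fin m → ℝ) →L[ℝ] K := fun y => (T y).inverse.comp (π.comp (Mf A y₀ y))
  have hQs : ContMDiffOn 𝓘(ℝ, E) 𝓘(ℝ, (Fin m → ℝ) →L[ℝ] K) ∞ Q U₁ := by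
    have h1 : ContDiff ℝ ∞ (fun M : (Fin m → ℝ) →L[ℝ] E => π.comp M) :=
      contDiff_const.clm_comp contDiff_id
    have h2 : ContMDiffOn 𝓘(ℝ, E) 𝓘(ℝ, (Fin m → ℝ) →L[ℝ] K) ∞ (fun y => π.comp (Mf A y₀ y)) U₁ :=
      h1.contMDiff.comp_contMDiffOn (hM.mono inter_subset_left)
    exact hTi.clm_comp h2
  have hQK : ∀ y ∈ U₁, ∀ s : K, Q y s = s := by
    intro y hy s
    obtain ⟨hyS, L, hL⟩ := hy
    show (T y).inverse (T y s) = s
    rw [← hL, ContinuousLinearMap.inverse_equiv]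
    exact L.symm_apply_apply s
  have hQ0 : ∀ y ∈ U₁, ∀ c, Q y c = 0 ↔ A.X c y = 0 := by
    intro y hy
    have hle : LinearMap.ker (A.XL y) ≤ LinearMap.ker (Q y : (Fin m → ℝ) →ₗ[ℝ] K) := by
      intro c hc
      have h1 : Mf A y₀ y c = 0 := (Mf_eq_zero_iff A hy.1 c).2 hc
      show (T y).inverse (π (Mf A y₀ y c)) = 0
      rw [h1, map_zero, map_zero]
    have hsurj : LinearMap.range (Q y : (Fin m → ℝ) →ₗ[ℝ] K) = ⊤ := by
      rw [LinearMap.range_eq_top]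
      intro s
      exact ⟨s, hQK y hy s⟩
    have h1 := LinearMap.finrank_range_add_finrank_ker (A.XL y)
    have h2 := LinearMap.finrank_range_add_finrank_ker (Q y : (Fin m → ℝ) →ₗ[ℝ] K)
    rw [hsurj, finrank_top, finrank_perp, hd] at h2
    have h3 : Module.finrank ℝ (LinearMap.range (A.XL y)) = d := hd y
    have h4 := Submodule.eq_of_le_of_finrank_eq hle (by omega)
    intro c
    have h5 : c ∈ LinearMap.ker (A.XL y) ↔ c ∈ LinearMap.ker (Q y : (Fin m → ℝ) →ₗ[ℝ] K) := by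
      rw [h4]
    exact h5.symm
  let W : N → K →L[ℝ] K := fun y => (Q y).comp (trL m ι (Q y))
  have htr : ContMDiffOn 𝓘(ℝ, E) 𝓘(ℝ, K →L[ℝ] (Fin m → ℝ)) ∞ (fun y => trL m ι (Q y)) U₁ := by
    exact (contDiff_trL m ι).contMDiff.comp_contMDiffOn hQs
  have hWs : ContMDiffOn 𝓘(ℝ, E) 𝓘(ℝ, K →L[ℝ] K) ∞ W U₁ := hQs.clm_comp htr
  have hW0 : W y₀ = ((ContinuousLinearEquiv.refl ℝ K : K ≃L[ℝ] K) : K →L[ℝ] K) := by
    refine ContinuousLinearMap.ext fun f => ?_
    have h1 : trL m ι (Q y₀) f = (f : Fin m → ℝ) := by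
      have h2 : ∀ c : Fin m → ℝ, ∑ j, c j * (trL m ι (Q y₀) f) j =
          ∑ j, c j * (f : Fin m → ℝ) j := by
        intro c
        rw [trL_dot]
        have h3 : Q y₀ (c - (Q y₀ c : Fin m → ℝ)) = 0 := by
          rw [map_sub, hQK y₀ hy1, sub_self]
        rw [hQ0 y₀ hy1] at h3
        have h4 := f.2 _ h3
        simp only [Pi.sub_apply, sub_mul, Finset.sum_sub_distrib] at h4
        have h5 : ∑ i, (ι f) i * (ι (Q y₀ c)) i =
            ∑ i, (Q y₀ c : Fin m → ℝ) i * (f : Fin m → ℝ) i :=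
          Finset.sum_congr rfl fun i _ => mul_comm _ _
        rw [h5]
        linarith
      ext j
      have := h2 (Pi.single j 1)
      simpa [Pi.single_apply] using this
    show Q y₀ (trL m ι (Q y₀) f) = f
    rw [h1]
    exact hQK y₀ hy1 f
  obtain ⟨hU2, hWi⟩ := open_inv hU1 hWs
  set U₂ := U₁ ∩ W ⁻¹' range ((↑) : (K ≃L[ℝ] K) → K →L[ℝ] K) with hU₂
  have hy2 : y₀ ∈ U₂ := ⟨hy1, ContinuousLinearEquiv.refl ℝ K, hW0.symm⟩
  refine ⟨U₂, Q, fun y => (trL m ι (Q y)).comp ((W y).inverse.comp (Q y)), hU2, hy2,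
    hQs.mono inter_subset_left, ?_, fun y hy => hQ0 y hy.1, fun y hy => hQK y hy.1, ?_⟩
  · exact (htr.mono inter_subset_left).clm_comp (hWi.clm_comp (hQs.mono inter_subset_left))
  · intro y hy c
    refine ⟨?_, ?_⟩
    · intro h hh
      show ∑ i, h i * (trL m ι (Q y) ((W y).inverse (Q y c))) i = 0
      rw [trL_dot, (hQ0 y hy.1 h).2 hh]
      simp
    · rw [← hQ0 y hy.1, map_sub, sub_eq_zero]
      show W y ((W y).inverse (Q y c)) = Q y c
      obtain ⟨hy', L, hL⟩ := hy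
      rw [← hL, ContinuousLinearMap.inverse_equiv]
      exact L.apply_symm_apply _

end chart

/-- **(BAS)** -/
theorem t_BAS : S_BAS.{u, v} := by
  intro E _ _ _ N _ _ _ _ m A μ hμ hLOC d hd hlat y₀
  obtain ⟨U₁, σ, ε, hU₁, hy₁, hε, hσ, hσp, hσμ, hσs⟩ := hLOC E N m A μ hμ y₀
  obtain ⟨U₂, Q, P, hU₂, hy₂, hQs, hPs, hQ0, hQK, hP⟩ := exists_proj A d hd y₀
  obtain ⟨b₀, hb₀, hb₀L⟩ := hlat y₀
  have hb₀mem : ∀ i, b₀ i ∈ A.Lat y₀ := by
    intro i
    rw [hb₀L]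
    refine ⟨Pi.single i 1, ?_⟩
    rw [Finset.sum_eq_single i]
    · simp
    · intro j _ hj
      simp [hj]
    · intro h
      exact absurd (Finset.mem_univ i) h
  -- the neighbourhood where the bases are defined
  let U₃ : Set N := (U₁ ∩ U₂) ∩ ⋂ i, (A.act (b₀ i)) ⁻¹' U₁
  have hU₃ : IsOpen U₃ := (hU₁.inter hU₂).inter
    (isOpen_iInter_of_finite fun i => hU₁.preimage (A.smooth_right (b₀ i)).continuous)
  have hy₃ : y₀ ∈ U₃ := by
    refine ⟨⟨hy₁, hy₂⟩, mem_iInter.2 fun i => ?_⟩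
    show A.act (b₀ i) y₀ ∈ U₁
    rw [(hb₀mem i).2]
    exact hy₁
  let β : N → Fin d → Fin m → ℝ := fun y i => b₀ i - (σ (A.act (b₀ i) y) - σ y)
  let b : N → Fin d → Fin m → ℝ := fun y i => P y (β y i)
  have hβact : ∀ y ∈ U₃, ∀ i, A.act (β y i) y = y := by
    intro y hy i
    have h1 : A.act (b₀ i) y ∈ U₁ := mem_iInter.1 hy.2 i
    have h2 := hσμ (A.act (b₀ i) y) h1 y hy.1.1 (hμ.inv _ _)
    have h3 : β y i = (σ y - σ (A.act (b₀ i) y)) + b₀ i := by
      show b₀ i - (σ (A.act (b₀ i) y) - σ y) = _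
      abel
    rw [h3, A.add]
    exact h2
  have hbmem : ∀ y ∈ U₃, ∀ i, b y i ∈ A.Lat y := by
    intro y hy i
    obtain ⟨h1, h2⟩ := hP y hy.1.2 (β y i)
    refine ⟨h1, ?_⟩
    have h3 : b y i = (P y (β y i) - β y i) + β y i := by
      show P y (β y i) = _
      abel
    rw [h3, A.add, hβact y hy i]
    exact A.act_eq_of_X_eq_zero h2
  have hb0 : b y₀ = b₀ := by
    ext1 i
    have h1 : β y₀ i = b₀ i := by
      show b₀ i - (σ (A.act (b₀ i) y₀) - σ y₀) = b₀ i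
      rw [(hb₀mem i).2, sub_self, sub_zero]
    show P y₀ (β y₀ i) = b₀ i
    rw [h1]
    obtain ⟨h2, h3⟩ := hP y₀ hy₂ (b₀ i)
    have h4 : P y₀ (b₀ i) - b₀ i ∈ A.perp y₀ := Submodule.sub_mem _ h2 (hb₀mem i).1
    exact sub_eq_zero.1 (eq_zero_of_perp h4 h3)
  have hβs : ∀ i, ContMDiffOn 𝓘(ℝ, E) 𝓘(ℝ, Fin m → ℝ) ∞ (fun y => β y i) U₃ := by
    intro i
    have h1 : ContMDiffOn 𝓘(ℝ, E) 𝓘(ℝ, Fin m → ℝ) ∞ (fun y => σ (A.act (b₀ i) y)) U₃ :=
      hσ.comp (A.smooth_right (b₀ i)).contMDiffOn (fun y hy => mem_iInter.1 hy.2 i)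
    have h2 : ContMDiffOn 𝓘(ℝ, E) 𝓘(ℝ, Fin m → ℝ) ∞ σ U₃ := hσ.mono fun y hy => hy.1.1
    exact contMDiffOn_const.sub (h1.sub h2)
  have hbs : ContMDiffOn 𝓘(ℝ, E) 𝓘(ℝ, Fin d → Fin m → ℝ) ∞ b U₃ := by
    rw [contMDiffOn_pi_space]
    intro i
    exact (hPs.mono fun y hy => hy.1.2).clm_apply (hβs i)
  have hbc : ContinuousOn b U₃ := hbs.continuousOn
  -- linear independence
  have hli : ∀ᶠ y in 𝓝 y₀, LinearIndependent ℝ (b y) := by
    have h1 : ContinuousAt b y₀ := hbc.continuousAt (hU₃.mem_nhds hy₃)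
    have h2 : ∀ᶠ v in 𝓝 (b y₀), LinearIndependent ℝ v := by
      rw [hb0]
      exact isOpen_setOfPred_linearIndependent.mem_nhds hb₀
    exact h1.eventually h2
  have hev3 : ∀ᶠ y in 𝓝 y₀, y ∈ U₃ := hU₃.mem_nhds hy₃
  -- no small combinations in the lattice
  have hK : IsCompact (Icc (fun _ => -(1/2) : Fin d → ℝ) (fun _ => 1/2)) := isCompact_Icc
  have hkey : ∀ᶠ y in 𝓝 y₀, ∀ θ ∈ Icc (fun _ => -(1/2) : Fin d → ℝ) (fun _ => 1/2),
      A.act (∑ i, θ i • b y i) y = y → θ = 0 := by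
    apply hK.eventually_forall_of_forall_eventually
    intro θ₀ hθ₀
    have hcont : ContinuousAt (fun p : N × (Fin d → ℝ) => ∑ i, p.2 i • b p.1 i) (y₀, θ₀) := by
      have h1 : ContinuousAt (fun p : N × (Fin d → ℝ) => b p.1) (y₀, θ₀) :=
        ContinuousAt.comp (f := Prod.fst) (g := b) (hbc.continuousAt (hU₃.mem_nhds hy₃))
          continuousAt_fst
      have h2 : ∀ i, ContinuousAt (fun p : N × (Fin d → ℝ) => p.2 i • b p.1 i) (y₀, θ₀) := by
        intro i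
        have h3 : ContinuousAt (fun p : N × (Fin d → ℝ) => b p.1 i) (y₀, θ₀) :=
          (continuous_apply i).continuousAt.comp h1
        have h4 : ContinuousAt (fun p : N × (Fin d → ℝ) => p.2 i) (y₀, θ₀) :=
          ((continuous_apply i).comp continuous_snd).continuousAt
        exact h4.smul h3
      exact tendsto_finsetSum _ fun i _ => h2 i
    have hcA : ContinuousAt (fun p : N × (Fin d → ℝ) => A.act (∑ i, p.2 i • b p.1 i) p.1)
        (y₀, θ₀) := by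
      have h1 : ContinuousAt (fun p : N × (Fin d → ℝ) => ((∑ i, p.2 i • b p.1 i), p.1))
          (y₀, θ₀) := hcont.prodMk continuousAt_fst
      exact ContinuousAt.comp (g := fun q : (Fin m → ℝ) × N => A.act q.1 q.2)
        A.smooth.continuous.continuousAt h1
    by_cases hθ : θ₀ = 0
    · -- small combinations
      have hfst : Filter.Tendsto (fun p : N × (Fin d → ℝ) => p.1) (𝓝 (y₀, θ₀)) (𝓝 y₀) :=
        continuousAt_fst
      have h1 : ∀ᶠ p : N × (Fin d → ℝ) in 𝓝 (y₀, θ₀), p.1 ∈ U₃ ∧ LinearIndependent ℝ (b p.1) :=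
        hfst.eventually (hev3.and hli)
      have hcQ : ContinuousAt (fun p : N × (Fin d → ℝ) => Q p.1 (∑ i, p.2 i • b p.1 i))
          (y₀, θ₀) := by
        have h2 : ContinuousAt (fun p : N × (Fin d → ℝ) => Q p.1) (y₀, θ₀) :=
          ContinuousAt.comp (f := Prod.fst) (g := Q)
            (hQs.continuousOn.continuousAt (hU₂.mem_nhds hy₂)) continuousAt_fst
        exact h2.clm_apply hcont
      have h2 : ∀ᶠ p : N × (Fin d → ℝ) in 𝓝 (y₀, θ₀), ‖Q p.1 (∑ i, p.2 i • b p.1 i)‖ < ε := by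
        have h3 : ContinuousAt (fun p : N × (Fin d → ℝ) => ‖Q p.1 (∑ i, p.2 i • b p.1 i)‖)
          (y₀, θ₀) := hcQ.norm
        apply h3.eventually_lt continuousAt_const
        simp [hθ, hε]
      filter_upwards [h1, h2] with p hp1 hp2 hact
      obtain ⟨hpU, hpl⟩ := hp1
      set lam := ∑ i, p.2 i • b p.1 i with hlam
      have h3 : lam ∈ A.perp p.1 :=
        Submodule.sum_mem _ fun i _ => Submodule.smul_mem _ _ (hbmem p.1 hpU i).1
      have h4 : A.X (lam - (Q p.1 lam : Fin m → ℝ)) p.1 = 0 := by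
        rw [← hQ0 p.1 hpU.1.2, map_sub, hQK p.1 hpU.1.2, sub_self]
      have h5 : A.act (Q p.1 lam : Fin m → ℝ) p.1 = p.1 := by
        have h6 : lam = (Q p.1 lam : Fin m → ℝ) + (lam - (Q p.1 lam : Fin m → ℝ)) := by abel
        rw [h6, A.add, A.act_eq_of_X_eq_zero h4] at hact
        exact hact
      have h6 := hσs p.1 hpU.1.1 _ (Q p.1 lam).2 hp2 h5
      have h7 : A.X lam p.1 = 0 := by
        rw [h6, sub_zero] at h4
        exact h4
      have h8 : lam = 0 := eq_zero_of_perp h3 h7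
      have h9 := Fintype.linearIndependent_iff.1 hpl p.2 (by rw [← hlam, h8])
      ext i
      exact h9 i
    · -- away from zero
      have h1 : A.act (∑ i, θ₀ i • b y₀ i) y₀ ≠ y₀ := by
        intro h
        rw [hb0] at h
        have h2 : (∑ i, θ₀ i • b₀ i) ∈ A.Lat y₀ :=
          ⟨Submodule.sum_mem _ fun i _ => Submodule.smul_mem _ _ (hb₀mem i).1, h⟩
        rw [hb₀L] at h2
        obtain ⟨n, hn⟩ := h2
        apply hθ
        ext i
        have h3 : ∑ i, (θ₀ i - n i) • b₀ i = 0 := by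
          simp only [sub_smul, Finset.sum_sub_distrib]
          rw [hn, sub_self]
        have h4 : θ₀ i = n i := sub_eq_zero.1 (Fintype.linearIndependent_iff.1 hb₀ _ h3 i)
        have h5 := hθ₀.1 i
        have h6 := hθ₀.2 i
        simp only at h5 h6
        rw [h4] at h5 h6
        have h7 : (-1 : ℝ) < n i := by linarith
        have h8 : (n i : ℝ) < 1 := by linarith
        have h9 : -1 < n i := by exact_mod_cast h7
        have h10 : n i < 1 := by exact_mod_cast h8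
        have h11 : n i = 0 := by omega
        rw [h4, h11]
        simp
      have h2 : ∀ᶠ p : N × (Fin d → ℝ) in 𝓝 (y₀, θ₀),
          A.act (∑ i, p.2 i • b p.1 i) p.1 ≠ p.1 := by
        have h3 : ContinuousAt (fun p : N × (Fin d → ℝ) => p.1) (y₀, θ₀) := continuousAt_fst
        exact (ContinuousAt.ne_iff_eventually_ne hcA h3).1 h1
      filter_upwards [h2] with p hp hact
      exact absurd hact hp
  have hnat : ∀ y ∈ U₃, ∀ (S : Finset (Fin d)) (n : Fin d → ℤ),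
      A.act (∑ i ∈ S, (n i : ℝ) • b y i) y = y := by
    intro y hy S n
    have h1 : ∀ s : Fin m → ℝ, A.act s y = y → ∀ k : ℤ, A.act ((k : ℝ) • s) y = y := by
      intro s hs k
      have h2 : ∀ k : ℕ, A.act ((k : ℝ) • s) y = y := by
        intro k
        induction k with
        | zero => simp [A.zero]
        | succ k ih =>
          push_cast
          rw [add_smul, one_smul, A.add, hs, ih]
      obtain ⟨k, rfl | rfl⟩ := k.eq_nat_or_neg
      · exact_mod_cast h2 k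
      · have h3 : A.act (((-(k : ℤ) : ℤ) : ℝ) • s) (A.act ((k : ℝ) • s) y) = y := by
          rw [← A.add, ← add_smul]
          push_cast
          rw [neg_add_cancel, zero_smul, A.zero]
        rwa [h2 k] at h3
    induction S using Finset.induction_on with
    | empty => simp [A.zero]
    | insert i S hi ih =>
      rw [Finset.sum_insert hi, A.add, ih]
      exact h1 _ (hbmem y hy i).2 _
  obtain ⟨U, hUs, hUo, hyU⟩ := eventually_nhds_iff.1 (hev3.and (hli.and hkey))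
  refine ⟨U, b, hUo, hyU, hbs.mono fun y hy => (hUs y hy).1, fun y hy => ?_⟩
  obtain ⟨hy3, hyl, hyk⟩ := hUs y hy
  refine ⟨hyl, fun s => ⟨fun hs => ?_, ?_⟩⟩
  · -- a basis of the orthogonal complement
    have h1 : Submodule.span ℝ (range (b y)) = A.perp y := by
      apply Submodule.eq_of_le_of_finrank_eq
      · rw [Submodule.span_le]
        rintro _ ⟨i, rfl⟩
        exact (hbmem y hy3 i).1
      · rw [finrank_span_eq_card hyl, Fintype.card_fin, finrank_perp, hd]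
    have h2 : s ∈ Submodule.span ℝ (range (b y)) := by rw [h1]; exact hs.1
    obtain ⟨x, hx⟩ := (Submodule.mem_span_range_iff_exists_fun ℝ).1 h2
    let θ : Fin d → ℝ := fun i => x i - round (x i)
    have h3 : θ ∈ Icc (fun _ => -(1/2) : Fin d → ℝ) (fun _ => 1/2) := by
      have h4 : ∀ i, |x i - round (x i)| ≤ 1 / 2 := fun i => abs_sub_round (x i)
      exact ⟨fun i => (abs_le.1 (h4 i)).1, fun i => (abs_le.1 (h4 i)).2⟩
    have h4 : A.act (∑ i, θ i • b y i) y = y := by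
      have h5 := hnat y hy3
      have h6 : ∑ i, θ i • b y i = s + ∑ i, ((-round (x i) : ℤ) : ℝ) • b y i := by
        rw [← hx, ← Finset.sum_add_distrib]
        refine Finset.sum_congr rfl fun i _ => ?_
        rw [← add_smul]
        congr 1
        push_cast
        ring
      rw [h6, A.add, h5 Finset.univ fun i => -round (x i)]
      exact hs.2
    have h5 := hyk θ h3 h4
    refine ⟨fun i => round (x i), ?_⟩
    rw [← hx]
    refine Finset.sum_congr rfl fun i _ => ?_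
    have h6 : x i - round (x i) = 0 := congrFun h5 i
    rw [sub_eq_zero.1 h6]
  · rintro ⟨n, rfl⟩
    exact ⟨Submodule.sum_mem _ fun i _ => Submodule.smul_mem _ _ (hbmem y hy3 i).1,
      hnat y hy3 Finset.univ n⟩

end Pool.Agent.J4H19.CI
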